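import Pool.Agent.Run7.h275.RB0

/-!
# Piece BND: the number of steps is bounded by the order of the minor
-/

set_option autoImplicit false

namespace Pool.Agent.Run7.h637.RB

open Pool.Agent.W418.LU2 Pool.Agent.Run7.h275.RL Pool.Agent.Run7.h275.RB

theorem BND : Pool.Agent.Run7.h275.RB.S_BND := by
  intro O S F _ _ _ _ _ _ p n B hp V hV e he
  have h1 : ∀ i j, p.Z n * (Matrix.of fun i j => dd p.φ (p.D j) (p.f i)) i j ∈ V := fun i j =>
    hV.BV (hp.bd j (p.f i) (hp.fP i))
  have h2 := det_mem (p.Z n) _ h1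
  have h3 : p.dl = p.u⁻¹ * (p.Z n *
      (p.Z n ^ p.r * (Matrix.of fun i j => dd p.φ (p.D j) (p.f i)).det)) := by
    have h := hp.det
    have hu := hp.u0
    rw [eq_inv_mul_iff_mul_eq₀ hu, ← h]
    ring
  have h4 : V.valuation p.dl ≤ V.valuation (p.Z n) := by
    rw [h3, map_mul, map_mul]
    have e1 : V.valuation p.u⁻¹ ≤ 1 := (V.valuation_le_one_iff _).2 hV.uV
    have e2 : V.valuation (p.Z n ^ p.r * (Matrix.of fun i j => dd p.φ (p.D j) (p.f i)).det) ≤ 1 :=
      (V.valuation_le_one_iff _).2 h2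
    calc V.valuation p.u⁻¹ * (V.valuation (p.Z n) * _)
        ≤ 1 * (V.valuation (p.Z n) * 1) := mul_le_mul' e1 (mul_le_mul' le_rfl e2)
      _ = V.valuation (p.Z n) := by rw [one_mul, mul_one]
  by_contra hn
  push Not at hn
  have h5 := he p.z fun i hi => hV.zV i (by omega)
  have h6 : V.valuation (p.Z n) ≤ V.valuation (∏ i ∈ Finset.range (e + 1), p.z i) := by
    have hk : p.Z n = (∏ i ∈ Finset.range (e + 1), p.z i) *
        ∏ i ∈ Finset.range (n - (e + 1)), p.z (e + 1 + i) := by
      unfold Pres.Z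
      conv_lhs => rw [show n = (e + 1) + (n - (e + 1)) by omega]
      rw [Finset.prod_range_add]
    rw [hk, map_mul]
    have e3 : V.valuation (∏ i ∈ Finset.range (n - (e + 1)), p.z (e + 1 + i)) ≤ 1 := by
      rw [map_prod]
      refine Finset.prod_le_one' fun i hi => ?_
      exact (hV.zV _ (by have := Finset.mem_range.1 hi; omega)).le
    exact mul_le_of_le_one_right' e3
  exact absurd (h5.trans_le h4) (not_lt.2 h6)

end Pool.Agent.Run7.h637.RB
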