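import Pool.Agent.Run7.h637.RB.Loc

/-!
# Piece GR: if `B_𝔭` is regular then `B` is regular on an open set of `V(𝔭)`
-/

set_option autoImplicit false

namespace Pool.Agent.Run7.h637.RB

open IsLocalRing Pool.Agent.W418.LU2 Pool.Agent.Run7.h275.RL Pool.Agent.Run7.h275.RB

section gens

variable {B L : Type} [CommRing B] [CommRing L] [Algebra B L] (𝔭 : Ideal B) [𝔭.IsPrime]
  [IsLocalization.AtPrime L 𝔭] [IsLocalRing L]

/-- Generators of `𝔭` on an open set. -/
theorem exists_gens [IsNoetherianRing B] [IsNoetherianRing L] :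
    ∃ (G : Finset B) (t : B), G.card ≤ (maximalIdeal L).spanFinrank ∧ (G : Set B) ⊆ 𝔭 ∧ t ∉ 𝔭 ∧
      ∀ p ∈ 𝔭, t * p ∈ Ideal.span (G : Set B) := by
  classical
  obtain ⟨gens, hcard, hspan⟩ :=
    (IsNoetherian.noetherian (maximalIdeal L)).exists_span_finset_card_eq_spanFinrank
  have hsec := fun x : L => IsLocalization.sec_spec 𝔭.primeCompl x
  have hmem : ∀ a : B, algebraMap B L a ∈ maximalIdeal L ↔ a ∈ 𝔭 := fun a =>
    IsLocalization.AtPrime.to_map_mem_maximal_iff L 𝔭 a
  let G : Finset B := gens.image fun x => (IsLocalization.sec 𝔭.primeCompl x).1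
  have hG : (G : Set B) ⊆ 𝔭 := by
    intro g hg
    obtain ⟨x, hx, rfl⟩ := Finset.mem_image.1 (Finset.mem_coe.1 hg)
    have hxm : x ∈ maximalIdeal L := by
      rw [← hspan]
      exact Submodule.subset_span hx
    change (IsLocalization.sec 𝔭.primeCompl x).1 ∈ 𝔭
    rw [← hmem, ← hsec x]
    exact Ideal.mul_mem_right _ _ hxm
  have hmap : maximalIdeal L ≤ (Ideal.span (G : Set B)).map (algebraMap B L) := by
    rw [← hspan]
    refine Submodule.span_le.2 fun x hx => ?_
    have hu : IsUnit (algebraMap B L (IsLocalization.sec 𝔭.primeCompl x).2) :=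
      IsLocalization.map_units L _
    have h1 : algebraMap B L (IsLocalization.sec 𝔭.primeCompl x).1 ∈
        (Ideal.span (G : Set B)).map (algebraMap B L) :=
      Ideal.mem_map_of_mem _ (Ideal.subset_span (Finset.mem_coe.2 (Finset.mem_image_of_mem _ hx)))
    rw [← hsec x] at h1
    exact (Ideal.mul_unit_mem_iff_mem _ hu).1 h1
  have hex : ∀ p ∈ 𝔭, ∃ u ∈ 𝔭.primeCompl, u * p ∈ Ideal.span (G : Set B) := by
    intro p hp
    rw [← IsLocalization.algebraMap_mem_map_algebraMap_iff 𝔭.primeCompl L]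
    exact hmap ((hmem p).2 hp)
  obtain ⟨T, hT⟩ := IsNoetherian.noetherian 𝔭
  have hTp : ∀ p : T, (p : B) ∈ 𝔭 := fun p => by
    have h : (p : B) ∈ Submodule.span B (T : Set B) := Submodule.subset_span p.2
    rwa [hT] at h
  choose u hu hup using fun p : T => hex p (hTp p)
  refine ⟨G, ∏ p, u p, ?_, hG, ?_, ?_⟩
  · rw [← hcard]
    exact Finset.card_image_le
  · exact (𝔭.primeCompl).prod_mem (t := Finset.univ) fun p _ => hu p
  · intro p hp
    have h1 : p ∈ Submodule.span B (T : Set B) := by rwa [hT]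
    refine Submodule.span_induction (p := fun p _ => (∏ p, u p) * p ∈ Ideal.span (G : Set B))
      ?_ ?_ ?_ ?_ h1
    · intro x hx
      rw [← Finset.mul_prod_erase _ _ (Finset.mem_univ (⟨x, hx⟩ : T))]
      have h3 : (u ⟨x, hx⟩ * ∏ p ∈ Finset.univ.erase ⟨x, hx⟩, u p) * x =
          (∏ p ∈ Finset.univ.erase ⟨x, hx⟩, u p) * (u ⟨x, hx⟩ * x) := by ring
      rw [h3]
      exact Ideal.mul_mem_left _ _ (hup ⟨x, hx⟩)
    · rw [mul_zero]
      exact Ideal.zero_mem _
    · intro x y _ _ hx hy
      rw [mul_add]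
      exact Ideal.add_mem _ hx hy
    · intro a x _ hx
      rw [smul_eq_mul, mul_left_comm]
      exact Ideal.mul_mem_left _ _ hx

end gens

/-- Regularity of `Q` from that of `Q / P`. -/
theorem reg_of_quot {Q : Type} [CommRing Q] [IsLocalRing Q] [IsNoetherianRing Q] (P : Ideal Q)
    [P.IsPrime] (hQ : IsRegularLocalRing (Q ⧸ P)) (G : Finset Q) (hG : Ideal.span (G : Set Q) = P)
    (hc : ((G.card : ℕ) : WithBot ℕ∞) ≤ ((P.height : ℕ∞) : WithBot ℕ∞)) : IsRegularLocalRing Q := by
  classical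
  apply IsRegularLocalRing.of_spanFinrank_maximalIdeal_le
  obtain ⟨H, hcard, hspan⟩ :=
    (IsNoetherian.noetherian (maximalIdeal (Q ⧸ P))).exists_span_finset_card_eq_spanFinrank
  choose l hl using fun x : Q ⧸ P => Ideal.Quotient.mk_surjective x
  let H' : Finset Q := H.image l
  have h1 : (Ideal.span (H' : Set Q)).map (Ideal.Quotient.mk P) = maximalIdeal (Q ⧸ P) := by
    rw [Ideal.map_span, Finset.coe_image, Set.image_image, ← hspan]
    simp only [hl, Set.image_id']
  have h2 : maximalIdeal Q = Ideal.span ((H' ∪ G : Finset Q) : Set Q) := by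
    have h3 : (maximalIdeal (Q ⧸ P)).comap (Ideal.Quotient.mk P) = maximalIdeal Q := by
      have : IsLocalHom (Ideal.Quotient.mk P) :=
        .of_surjective _ Ideal.Quotient.mk_surjective
      exact IsLocalRing.maximalIdeal_comap _
    rw [← h3, ← h1, Ideal.comap_map_of_surjective _ Ideal.Quotient.mk_surjective,
      ← RingHom.ker_eq_comap_bot, Ideal.mk_ker, Finset.coe_union, Ideal.span_union, hG]
  have h4 : (maximalIdeal Q).spanFinrank ≤ H.card + G.card := by
    rw [h2]
    refine (Submodule.spanFinrank_span_le_ncard_of_finite (Finset.finite_toSet _)).trans ?_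
    rw [Set.ncard_coe_finset]
    exact (Finset.card_union_le _ _).trans (Nat.add_le_add_right Finset.card_image_le _)
  have h5 : ((H.card : ℕ) : WithBot ℕ∞) = ringKrullDim (Q ⧸ P) := by
    rw [hcard]
    exact hQ.spanFinrank_maximalIdeal
  calc ((((maximalIdeal Q).spanFinrank : ℕ)) : WithBot ℕ∞)
      ≤ ((H.card + G.card : ℕ) : WithBot ℕ∞) := by exact_mod_cast h4
    _ = ((G.card : ℕ) : WithBot ℕ∞) + ((H.card : ℕ) : WithBot ℕ∞) := by
        rw [add_comm]; push_cast; rfl
    _ ≤ ((P.height : ℕ∞) : WithBot ℕ∞) + ringKrullDim (Q ⧸ P) := by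
        rw [h5]; exact add_le_add hc le_rfl
    _ ≤ ringKrullDim Q := height_add_le P

theorem GR : Pool.Agent.Run7.h275.RB.S_GR := by
  classical
  intro F _ B hBn 𝔭 h𝔭 hreg
  obtain ⟨G, t, hGc, hGp, ht, htp⟩ := exists_gens (L := Localization.AtPrime 𝔭) 𝔭
  refine ⟨t, ht, ?_⟩
  intro V hBV hV htV hRQ
  have hcp := isPrime_cen hBV
  let _ := algLo V.toSubring B
  have hloc := loc_lo hBV
  have hlr : IsLocalRing (lo V.toSubring B) := isLocalRing_lo (loc_V V) hBV
  have hnoe : IsNoetherianRing (lo V.toSubring B) :=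
    IsLocalization.isNoetherianRing (cen hBV).primeCompl _ hBn
  have hdis : Disjoint ((cen hBV).primeCompl : Set B) (𝔭 : Set B) := by
    rw [Set.disjoint_left]
    intro b hb hb'
    exact hb (hV b hb')
  have hP : (𝔭.map (algebraMap B (lo V.toSubring B))).IsPrime :=
    IsLocalization.isPrime_of_isPrime_disjoint (cen hBV).primeCompl _ 𝔭 h𝔭 hdis
  have htu : IsUnit (algebraMap B (lo V.toSubring B) t) :=
    IsLocalization.map_units (lo V.toSubring B) (⟨t, htV⟩ : (cen hBV).primeCompl)
  refine reg_of_quot (𝔭.map (algebraMap B (lo V.toSubring B))) hRQ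
    (G.image (algebraMap B (lo V.toSubring B))) ?_ ?_
  · rw [Finset.coe_image, ← Ideal.map_span]
    apply le_antisymm
    · exact Ideal.map_mono (Ideal.span_le.2 hGp)
    · rw [Ideal.map_le_iff_le_comap]
      intro p hp
      have h1 := Ideal.mem_map_of_mem (algebraMap B (lo V.toSubring B)) (htp p hp)
      rw [map_mul] at h1
      exact (Ideal.unit_mul_mem_iff_mem _ htu).1 h1
  · rw [IsLocalization.height_map_of_disjoint (cen hBV).primeCompl 𝔭 hdis,
      ← IsLocalization.AtPrime.ringKrullDim_eq_height 𝔭 (Localization.AtPrime 𝔭),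
      ← hreg.spanFinrank_maximalIdeal]
    have h1 : (G.image (algebraMap B (lo V.toSubring B))).card ≤
        (maximalIdeal (Localization.AtPrime 𝔭)).spanFinrank := Finset.card_image_le.trans hGc
    exact_mod_cast h1

end Pool.Agent.Run7.h637.RB
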