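import Pool.Agent.Run7.h275.RB0

/-!
# Piece REG0: at level zero, if the minor is a unit then the centre is regular
-/

set_option autoImplicit false

namespace Pool.Agent.Run7.h637.RB

open IsLocalRing Pool.Agent.W418.LU2 Pool.Agent.Run7.h275.RL Pool.Agent.Run7.h275.RB

section reg0

variable {F : Type} [Field F] {V : ValuationSubring F}

lemma lt_one_iff_NU {w : F} (hw : w ∈ V) : V.valuation w < 1 ↔ NU V.toSubring w := by
  unfold NU
  constructor
  · rintro h ⟨h0, h1⟩
    have h2 : V.valuation w⁻¹ ≤ 1 := (V.valuation_le_one_iff _).2 h1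
    have h3 : V.valuation w * V.valuation w⁻¹ = 1 := by
      rw [← map_mul, mul_inv_cancel₀ h0, map_one]
    have h4 : V.valuation w * V.valuation w⁻¹ < 1 := mul_lt_one_aux' h h2
    exact absurd h3 h4.ne
  · intro h
    refine lt_of_le_of_ne ((V.valuation_le_one_iff _).2 hw) fun h1 => h ⟨?_, ?_⟩
    · rintro rfl
      rw [map_zero] at h1
      exact zero_ne_one h1
    · change w⁻¹ ∈ V
      rw [← V.valuation_le_one_iff, map_inv₀, h1, inv_one]

lemma lt_sum {ι : Type} (s : Finset ι) {f : ι → F} (h : ∀ i ∈ s, V.valuation (f i) < 1) :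
    V.valuation (∑ i ∈ s, f i) < 1 := by
  classical
  induction s using Finset.induction_on with
  | empty => rw [Finset.sum_empty, map_zero]; exact zero_lt_one
  | insert a s ha ih =>
    rw [Finset.sum_insert ha]
    exact Valuation.map_add_lt _ (h a (Finset.mem_insert_self _ _))
      (ih fun i hi => h i (Finset.mem_insert_of_mem hi))

lemma adj_mem {r : ℕ} (M : Matrix (Fin r) (Fin r) F) (h : ∀ i j, M i j ∈ V) (i j : Fin r) :
    M.adjugate i j ∈ V := by
  let N : Matrix (Fin r) (Fin r) V.toSubring := fun i j => ⟨M i j, h i j⟩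
  have h2 : (V.toSubring.subtype).mapMatrix N = M := by
    ext i j
    rfl
  rw [← h2, ← RingHom.map_adjugate]
  exact (N.adjugate i j).2

/-- Cramer's rule modulo the maximal ideal. -/
lemma cramer {r : ℕ} (M : Matrix (Fin r) (Fin r) F) (h : ∀ i j, M i j ∈ V)
    (hdet : ¬ V.valuation M.det < 1) (w : Fin r → F)
    (hw : ∀ j, V.valuation (∑ i, w i * M i j) < 1) (i : Fin r) : V.valuation (w i) < 1 := by
  have h1 : Matrix.vecMul (Matrix.vecMul w M) M.adjugate = M.det • w := by
    rw [Matrix.vecMul_vecMul, Matrix.mul_adjugate, Matrix.vecMul_smul, Matrix.vecMul_one]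
  have h2 : V.valuation (M.det * w i) < 1 := by
    have h3 : M.det * w i = ∑ j, (Matrix.vecMul w M) j * M.adjugate j i := by
      have := congrFun h1 i
      rw [Pi.smul_apply, smul_eq_mul] at this
      rw [← this]
      rfl
    rw [h3]
    refine lt_sum _ fun j _ => ?_
    rw [map_mul]
    refine mul_lt_one_aux' ?_ ((V.valuation_le_one_iff _).2 (adj_mem M h j i))
    exact hw j
  by_contra h3
  apply absurd h2
  rw [not_lt, map_mul]
  rw [not_lt] at h3 hdet
  exact one_le_mul hdet h3

end reg0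

theorem REG0 : Pool.Agent.Run7.h275.RB.S_REG0 := by
  intro S F _ _ _ _ φ r D hD f₀ hf0 hgen hDφ V hV hdet
  classical
  have hφV : ∀ s, φ s ∈ V := fun s => hV ⟨s, rfl⟩
  have hRA : (algebraMap S (FractionRing S)).range ≤ AA (FractionRing S) φ V := by
    rintro _ ⟨s, rfl⟩
    exact ⟨φ s, hφV s, Pr.alg s⟩
  have hreg : IsRegularLocalRing (lo (AA (FractionRing S) φ V) (algebraMap S (FractionRing S)).range) :=
    regular_range hφV
  have him : im φ (lo (AA (FractionRing S) φ V) (algebraMap S (FractionRing S)).range) =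
      lo V.toSubring φ.range := by
    rw [im_lo hRA]
    congr 1
    ext w
    constructor
    · rintro ⟨_, ⟨s, rfl⟩, h⟩
      exact ⟨s, (Pr.alg s).unique h⟩
    · rintro ⟨s, rfl⟩
      exact ⟨_, ⟨s, rfl⟩, Pr.alg s⟩
  rw [← him]
  have hunit := fun y : lo (AA (FractionRing S) φ V) (algebraMap S (FractionRing S)).range =>
    isUnit_lo_iff hRA y
  have hBB : ∀ j, lo (AA (FractionRing S) φ V) (algebraMap S (FractionRing S)).range ≤
      BB (FractionRing S) V (hD j) 1 := by
    intro j
    apply lo_le_BB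
    rintro _ ⟨s, rfl⟩
    refine ⟨φ s, hφV s, Pr.alg s, ?_⟩
    rw [one_mul, dd_alg (hD j)]
    exact hV (hDφ j s)
  have hS : ∀ s, algebraMap S (FractionRing S) s ∈
      lo (AA (FractionRing S) φ V) (algebraMap S (FractionRing S)).range := fun s =>
    le_lo _ _ ⟨s, rfl⟩
  have hPA := lo_le hRA
  have hfr : ∀ y ∈ lo (AA (FractionRing S) φ V) (algebraMap S (FractionRing S)).range,
      ∃ a b : S, φ b ≠ 0 ∧ y * algebraMap S (FractionRing S) b = algebraMap S (FractionRing S) a := by
    rintro _ ⟨_, ⟨a, rfl⟩, _, ⟨b, rfl⟩, hb0, hbA, rfl⟩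
    refine ⟨a, b, ?_, ?_⟩
    · exact ((Pr.inv_AA (V := V) (Pr.alg b)).1 ⟨hb0, hbA⟩).1
    · rw [mul_assoc, inv_mul_cancel₀ hb0, mul_one]
  generalize hP : lo (AA (FractionRing S) φ V) (algebraMap S (FractionRing S)).range = P at *
  have hmax : ∀ y : P, y ∈ maximalIdeal P ↔ NU (AA (FractionRing S) φ V) (y : FractionRing S) := by
    intro y
    rw [mem_maximalIdeal, mem_nonunits_iff, hunit]
    rfl
  have hv : ∀ y : P, ∃ w ∈ V, Pr φ (y : FractionRing S) w := fun y => hPA y.2
  have hvm : ∀ y : P, y ∈ maximalIdeal P → ∀ w, Pr φ (y : FractionRing S) w → V.valuation w < 1 := by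
    intro y hy w hw
    have hwV : w ∈ V := (hw.mem_AA).1 (hPA y.2)
    rw [lt_one_iff_NU hwV, ← Pr.nu hw]
    exact (hmax y).1 hy
  have hdV : ∀ j, ∀ y : P, V.valuation (dd φ (D j) (y : FractionRing S)) ≤ 1 := by
    intro j y
    obtain ⟨w, hw, h1, h2⟩ := hBB j y.2
    rw [one_mul] at h2
    exact (V.valuation_le_one_iff _).2 h2
  have hsq : ∀ j, ∀ y : P, y ∈ maximalIdeal P ^ 2 →
      V.valuation (dd φ (D j) (y : FractionRing S)) < 1 := by
    intro j y hy
    rw [pow_two] at hy
    refine Submodule.mul_induction_on hy ?_ ?_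
    · intro a ha b hb
      obtain ⟨wa, hwa, h1⟩ := hv a
      obtain ⟨wb, hwb, h2⟩ := hv b
      have h3 : ((a * b : P) : FractionRing S) = (a : FractionRing S) * b := rfl
      rw [h3, dd_mul (hD j) h1 h2]
      refine Valuation.map_add_lt _ ?_ ?_
      · rw [map_mul]
        exact mul_lt_one_aux' (hvm a ha _ h1) (hdV j b)
      · rw [map_mul]
        exact mul_lt_one_aux' (hvm b hb _ h2) (hdV j a)
    · intro a b ha hb
      obtain ⟨wa, hwa, h1⟩ := hv a
      obtain ⟨wb, hwb, h2⟩ := hv b
      have h3 : ((a + b : P) : FractionRing S) = (a : FractionRing S) + b := rfl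
      rw [h3, dd_add (hD j) h1 h2]
      exact Valuation.map_add_lt _ ha hb
  let f' : Fin r → P := fun i => ⟨algebraMap S (FractionRing S) (f₀ i), hS _⟩
  have hf'0 : ∀ i, Pr φ (f' i : FractionRing S) 0 := by
    intro i
    have h1 : Pr φ (algebraMap S (FractionRing S) (f₀ i)) (φ (f₀ i)) := Pr.alg _
    rw [hf0 i] at h1
    exact h1
  have hi : Ind f' := by
    refine ⟨fun i => ?_, fun c hc i => ?_⟩
    · rw [hmax]
      exact (Pr.nu (V := V) (hf'0 i)).2 NU.zero
    · choose w hwV hw using fun i => hv (c i)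
      have h1 : ∀ j, V.valuation (∑ i, w i * (Matrix.of fun i j => D j (f₀ i)) i j) < 1 := by
        intro j
        have h2 := hsq j _ hc
        have h3 : ((∑ i, c i * f' i : P) : FractionRing S) =
            ∑ i, (c i : FractionRing S) * (f' i : FractionRing S) := map_sum P.subtype _ _
        rw [h3, dd_sum (hD j) (w := fun i => w i * 0) _ fun i _ => (hw i).mul (hf'0 i)] at h2
        have h4 : ∀ i ∈ Finset.univ, dd φ (D j) ((c i : FractionRing S) * (f' i : FractionRing S)) =
            w i * (Matrix.of fun i j => D j (f₀ i)) i j := by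
          intro i _
          rw [dd_mul (hD j) (hw i) (hf'0 i), zero_mul, add_zero]
          congr 1
          exact dd_alg (hD j) (f₀ i)
        rw [Finset.sum_congr rfl h4] at h2
        exact h2
      have h5 := cramer (Matrix.of fun i j => D j (f₀ i)) (fun i j => hV (hDφ j (f₀ i))) hdet w h1 i
      rw [hmax, Pr.nu (hw i)]
      exact (lt_one_iff_NU (hwV i)).1 h5
  let θ : P →+* im φ P := (prA.comp (Subring.inclusion hPA)).codRestrict (im φ P) (by
    intro y
    exact ⟨y, y.2, prA_spec (Subring.inclusion hPA y)⟩)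
  have hθ : ∀ y : P, Pr φ (y : FractionRing S) (θ y : F) := fun y =>
    prA_spec (Subring.inclusion hPA y)
  have hθs : Function.Surjective θ := by
    rintro ⟨w, hw⟩
    obtain ⟨z, hz, hzw⟩ := hw
    exact ⟨⟨z, hz⟩, Subtype.ext ((hθ ⟨z, hz⟩).unique hzw)⟩
  have hθf : ∀ i, θ (f' i) = 0 := fun i => Subtype.ext ((hθ (f' i)).unique (hf'0 i))
  have hJr := hi.regular
  have hJd : IsDomain (P ⧸ Ideal.span (Set.range f')) := Pool.Agent.H379R3.isDomain _
  have hJp := (Ideal.Quotient.isDomain_iff_prime _).1 hJd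
  have hJk : Ideal.span (Set.range f') ≤ RingHom.ker θ := by
    rw [Ideal.span_le]
    rintro _ ⟨i, rfl⟩
    exact hθf i
  let ψ : S →+* P := (algebraMap S (FractionRing S)).codRestrict P hS
  have hker : RingHom.ker θ = Ideal.span (Set.range f') := by
    apply le_antisymm _ hJk
    intro y hy
    have hy0 : Pr φ (y : FractionRing S) 0 := by
      have h1 := hθ y
      rw [RingHom.mem_ker.1 hy] at h1
      exact h1
    obtain ⟨a, b, hb, hab⟩ := hfr y y.2
    have ha : φ a = 0 := by
      have h1 := hy0.mul (Pr.alg (F := FractionRing S) (φ := φ) b)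
      rw [hab, zero_mul] at h1
      exact (Pr.alg a).unique h1
    obtain ⟨t, ht, hts⟩ := hgen a ha
    have h1 : ψ (t * b) * y ∈ Ideal.span (Set.range f') := by
      have h2 : ψ (t * b) * y = ψ (t * a) := by
        apply Subtype.ext
        change algebraMap S (FractionRing S) (t * b) * (y : FractionRing S) =
          algebraMap S (FractionRing S) (t * a)
        rw [map_mul, map_mul, ← hab]
        ring
      rw [h2]
      have h3 := Ideal.mem_map_of_mem ψ hts
      rw [Ideal.map_span] at h3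
      refine Ideal.span_mono ?_ h3
      rintro _ ⟨_, ⟨i, rfl⟩, rfl⟩
      exact ⟨i, rfl⟩
    rcases hJp.mem_or_mem h1 with h2 | h2
    · exfalso
      have h3 := hJk h2
      have h4 := hθ (ψ (t * b))
      rw [RingHom.mem_ker.1 h3] at h4
      have h5 : φ (t * b) = 0 := (Pr.alg (F := FractionRing S) (φ := φ) (t * b)).unique h4
      rw [map_mul] at h5
      exact mul_ne_zero ht hb h5
    · exact h2
  have h1 : IsRegularLocalRing (P ⧸ RingHom.ker θ) := by
    rw [hker]
    exact hJr
  exact IsRegularLocalRing.of_ringEquiv (RingHom.quotientKerEquivOfSurjective hθs)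

end Pool.Agent.Run7.h637.RB
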