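import Pool.Agent.Run7.h275.RB6

/-!
# Piece MONX: the monoidal transform with a boundary
-/

set_option autoImplicit false
set_option linter.unusedVariables false

namespace Pool.Agent.Run7.h637.RB

open IsLocalRing Pool.Agent.W418.LU2 Pool.Agent.H918R2.Quad Pool.Agent.Run7.h275.RL Pool.Agent.Run7.h275.RB

/-- The kernel of a surjection of regular local rings is generated by a part of a regular system of parameters, which
contains a given independent family. -/
theorem exists_ind' {B : Type} [CommRing B] [IsRegularLocalRing B] (J : Ideal B) [IsRegularLocalRing (B ⧸ J)]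
    {ι : Type} [Fintype ι] {w : ι → B} (hw : Ind w) (hwJ : ∀ i, w i ∈ J) :
    ∃ (r : ℕ) (z : Fin r → B), Ind (Sum.elim w z) ∧ Ideal.span (Set.range (Sum.elim w z)) = J := by
  classical
  have hne : J ≠ ⊤ := Ideal.Quotient.nontrivial_iff.1 inferInstance
  have hJ : J ≤ maximalIdeal B := IsLocalRing.le_maximalIdeal hne
  have hb : ∀ r : ℕ, ∀ z : Fin r → B, Ind (Sum.elim w z) →
      r ≤ Module.finrank (ResidueField B) (CotangentSpace B) := by
    intro r z hz
    have h1 := ((ind_iff hz.1).1 hz).fintype_card_le_finrank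
    rw [Fintype.card_sum, Fintype.card_fin] at h1
    exact (Nat.le_add_left _ _).trans h1
  let p : ℕ → Prop := fun r => ∃ z : Fin r → B, Ind (Sum.elim w z) ∧ ∀ i, z i ∈ J
  have hp0 : p 0 := by
    refine ⟨Fin.elim0, ⟨?_, ?_⟩, fun i => i.elim0⟩
    · rintro (i | i)
      · exact hw.1 i
      · exact i.elim0
    · intro c hc
      rw [Fintype.sum_sum_type] at hc
      simp only [Sum.elim_inl, Finset.univ_eq_empty, Finset.sum_empty, add_zero] at hc
      have h1 := hw.2 (fun i => c (Sum.inl i)) hc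
      rintro (i | i)
      · exact h1 i
      · exact i.elim0
  set n := Module.finrank (ResidueField B) (CotangentSpace B) with hn
  have hr := Nat.findGreatest_spec (P := p) (Nat.zero_le n) hp0
  set r := Nat.findGreatest p n with hrd
  obtain ⟨z, hz, hzJ⟩ := hr
  have hmax : ¬ p (r + 1) := by
    rintro ⟨z', hz', hz'J⟩
    have h1 := hb _ z' hz'
    have h2 := Nat.le_findGreatest (P := p) h1 ⟨z', hz', hz'J⟩
    rw [← hrd] at h2
    omega
  have hyJ : ∀ i, Sum.elim w z i ∈ J := by
    rintro (i | i)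
    · exact hwJ i
    · exact hzJ i
  refine ⟨r, z, hz, le_antisymm ?_ ?_⟩
  · rw [Ideal.span_le]
    rintro _ ⟨i, rfl⟩
    exact hyJ i
  · have hfg : J.FG := J.fg_of_isNoetherianRing
    refine Submodule.le_of_le_smul_of_le_jacobson_bot (I := maximalIdeal B) hfg
      (IsLocalRing.maximalIdeal_le_jacobson _) ?_
    intro j hj
    -- the family extended by `j` is not independent
    have h1 : ¬ Ind (Sum.elim w (Fin.cons j z : Fin (r + 1) → B)) := by
      intro h
      apply hmax
      refine ⟨_, h, fun i => ?_⟩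
      refine Fin.cases ?_ (fun i => ?_) i
      · exact hj
      · exact hzJ i
    unfold Ind at h1
    rw [not_and] at h1
    have h2 := h1 (by
      rintro (i | i)
      · exact hJ (hwJ i)
      · refine Fin.cases ?_ (fun i => ?_) i
        · exact hJ hj
        · exact hJ (hzJ i))
    push Not at h2
    obtain ⟨c, hc, i, hi⟩ := h2
    rw [Fintype.sum_sum_type, Fin.sum_univ_succ] at hc
    simp only [Sum.elim_inl, Sum.elim_inr, Fin.cons_zero, Fin.cons_succ] at hc
    let c' : ι ⊕ Fin r → B := Sum.elim (fun i => c (Sum.inl i)) fun i => c (Sum.inr i.succ)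
    have hc' : c (Sum.inr 0) * j + ∑ i, c' i * Sum.elim w z i ∈ maximalIdeal B ^ 2 := by
      rw [Fintype.sum_sum_type]
      simp only [Sum.elim_inl, Sum.elim_inr, c']
      convert hc using 1
      ring
    have hc0 : c (Sum.inr 0) ∉ maximalIdeal B := by
      intro h0
      have h3 : c (Sum.inr 0) * j ∈ maximalIdeal B ^ 2 := by
        rw [pow_two]
        exact Ideal.mul_mem_mul h0 (hJ hj)
      have h4 : ∑ i, c' i * Sum.elim w z i ∈ maximalIdeal B ^ 2 := by
        have h5 := Ideal.sub_mem _ hc' h3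
        rwa [add_sub_cancel_left] at h5
      have h5 := hz.2 c' h4
      apply hi
      rcases i with i | i
      · exact h5 (Sum.inl i)
      · refine Fin.cases ?_ (fun i => ?_) i
        · exact h0
        · exact h5 (Sum.inr i)
    obtain ⟨u, hu⟩ : IsUnit (c (Sum.inr 0)) := by
      rwa [mem_maximalIdeal, mem_nonunits_iff, not_not] at hc0
    have h3 : j + ∑ i, (↑u⁻¹ * c' i) * Sum.elim w z i ∈ maximalIdeal B ^ 2 := by
      have h4 := Ideal.mul_mem_left _ (↑u⁻¹ : B) hc'
      rw [← hu, mul_add, Units.inv_mul_cancel_left, Finset.mul_sum] at h4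
      simpa only [mul_assoc] using h4
    have h4 : ∑ i, (↑u⁻¹ * c' i) * Sum.elim w z i ∈ Ideal.span (Set.range (Sum.elim w z)) :=
      Ideal.sum_mem _ fun i _ => Ideal.mul_mem_left _ _ (Ideal.subset_span ⟨i, rfl⟩)
    have h5 : j + ∑ i, (↑u⁻¹ * c' i) * Sum.elim w z i ∈ maximalIdeal B * J := by
      refine Pool.Agent.H379R3.inf_sq_le J ⟨?_, h3⟩
      refine Ideal.add_mem _ hj ?_
      exact Ideal.sum_mem _ fun i _ => Ideal.mul_mem_left _ _ (hyJ i)
    have h6 : j = (-∑ i, (↑u⁻¹ * c' i) * Sum.elim w z i) +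
        (j + ∑ i, (↑u⁻¹ * c' i) * Sum.elim w z i) := by ring
    rw [h6]
    exact Submodule.add_mem_sup (Ideal.neg_mem_iff _ |>.2 h4) h5

lemma bl_cl_le {F : Type} [Field F] {A P : Subring F} (hP : P ≤ A) {I : Ideal P} {x : F}
    (h : ∀ b : P, b ∈ I → (b : F) / x ∈ A) :
    Subring.closure ((P : Set F) ∪ {t | ∃ b : P, b ∈ I ∧ t = (b : F) / x}) ≤ A := by
  rw [Subring.closure_le]
  rintro t (ht | ⟨b, hb, rfl⟩)
  · exact hP ht
  · exact h b hb

/-- The monoidal transform, with the parameters. -/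
theorem mon_core {F : Type} [Field F] {A P : Subring F} (hA : Loc A) (hP : P ≤ A)
    (hreg : IsRegularLocalRing (lo A P)) (I : Ideal P) {ι : Type} [Fintype ι] [DecidableEq ι]
    (z : ι → lo A P) (hz : Ind z)
    (hzJ : Ideal.span (Set.range z) = I.map (Subring.inclusion (le_lo A P)))
    (x : P) (hxI : x ∈ I) (hx0 : x ≠ 0) (hxA : ∀ b : P, b ∈ I → (b : F) / x ∈ A) :
    ∃ j, (x : F) / (z j : F) ∈ A ∧ (x : F) / (z j : F) ∈ bl A P I x ∧ (z j : F) / (x : F) ∈ A ∧
      RegP A (bl A P I x) (fun i => if i = j then (z j : F) else (z i : F) * (z j : F)⁻¹) := by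
  classical
  set J : Ideal (lo A P) := I.map (Subring.inclusion (le_lo A P)) with hJ
  have hQA : lo A P ≤ A := lo_le hP
  have hPQ : P ≤ lo A P := le_lo A P
  have hx0' : (x : F) ≠ 0 := fun h => hx0 (Subtype.ext h)
  set R : Subring F := Subring.closure ((P : Set F) ∪ {t | ∃ b : P, b ∈ I ∧ t = (b : F) / (x : F)}) with hR
  have hRA : R ≤ A := bl_cl_le hP hxA
  have hPR : P ≤ R := fun y hy => Subring.subset_closure (Or.inl hy)
  have hQT : lo A P ≤ lo A R := lo_mono hPR
  -- elements of `J` divided by `x`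
  have hJT : ∀ j : lo A P, j ∈ J → (j : F) / (x : F) ∈ lo A R := by
    intro j hj
    rw [hJ, Ideal.map] at hj
    induction hj using Submodule.span_induction with
    | mem y hy =>
      obtain ⟨b, hb, rfl⟩ := hy
      exact le_lo _ _ (Subring.subset_closure (Or.inr ⟨b, hb, rfl⟩))
    | zero =>
      change (0 : F) / (x : F) ∈ _
      rw [zero_div]
      exact Subring.zero_mem _
    | add a b _ _ ha hb =>
      change ((a : F) + (b : F)) / (x : F) ∈ _
      rw [add_div]
      exact Subring.add_mem _ ha hb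
    | smul c a _ ha =>
      change ((c : F) * (a : F)) / (x : F) ∈ _
      rw [mul_div_assoc]
      exact Subring.mul_mem _ (hQT c.2) ha
  have hTA : lo A R ≤ A := lo_le hRA
  have hzJ' : ∀ i, z i ∈ J := fun i => by
    rw [← hzJ]
    exact Ideal.subset_span ⟨i, rfl⟩
  have hz0 : ∀ i, (z i : F) ≠ 0 := fun i h => hz.ne_zero i (Subtype.ext h)
  -- the regular system of parameters
  have hzm : ∀ i, NU A (z i : F) := by
    intro i ⟨h0, h1⟩
    have h2 := hz.1 i
    rw [mem_maximalIdeal, mem_nonunits_iff] at h2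
    exact h2 ((isUnit_lo_iff hP _).2 ⟨h0, h1⟩)
  have hzn : ∀ i, (z i : F)⁻¹ ∉ A := fun i h => hzm i ⟨hz0 i, h⟩
  have hRP : RegP A (lo A P) (fun i => (z i : F)) :=
    { PA := hQA
      ne := hz0
      mem := fun i => (z i).2
      reg := hreg
      inv := fun y hy h0 h1 => inv_mem_lo hP hy h0 h1
      ind := by
        refine IndN.of_ind (id : ι → ι) Function.injective_id (fun i _ => ⟨i, rfl⟩) ?_
        exact hz }
  -- expansion of the elements of `I`
  have hexp : ∀ b : P, b ∈ I → ∃ c : ι → lo A P, (b : F) = ∑ i, (c i : F) * (z i : F) := by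
    intro b hb
    have h1 : (Subring.inclusion (le_lo A P) b : lo A P) ∈ J := Ideal.mem_map_of_mem _ hb
    rw [← hzJ, Ideal.mem_span_range_iff_exists_fun] at h1
    obtain ⟨c, hc⟩ := h1
    refine ⟨c, ?_⟩
    have h2 := congrArg ((lo A P).subtype) hc
    rw [map_sum] at h2
    exact h2.symm
  obtain ⟨c, hc⟩ := hexp x hxI
  obtain ⟨j, hj⟩ : ∃ j, (x : F) / (z j : F) ∈ A := by
    by_contra hcon
    push Not at hcon
    refine not_NU_one (A := A) ?_
    have h1 : (1 : F) = ∑ i, (c i : F) * ((z i : F) / (x : F)) := by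
      rw [← div_self hx0']
      nth_rewrite 1 [hc]
      rw [Finset.sum_div]
      exact Finset.sum_congr rfl fun i _ => by ring
    rw [h1]
    refine NU.sum hA _ (fun i _ => ?_) (fun i _ => ?_)
    · exact A.mul_mem (hQA (c i).2) (hTA (hJT _ (hzJ' i)))
    · refine NU.mul (hQA (c i).2) ?_
      rintro ⟨h3, h4⟩
      rw [inv_div] at h4
      exact hcon i h4
  have hij : ∀ i, (z i : F) * (z j : F)⁻¹ ∈ A := by
    intro i
    have h1 : (z i : F) * (z j : F)⁻¹ = ((z i : F) / (x : F)) * ((x : F) / (z j : F)) := by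
      have := hz0 j
      field_simp
    rw [h1]
    exact A.mul_mem (hTA (hJT _ (hzJ' i))) hj
  have hmain := regP_qt hA hRP j (hzn j) (Finset.univ.erase j) (fun i hi =>
    ⟨Finset.ne_of_mem_erase hi, hzn i, hij i⟩)
  have hreg2 := hmain.reg
  set U : Subring F := Subring.closure (((lo A P : Subring F) : Set F) ∪ {t | ∃ i ∈ Finset.univ.erase j,
    t = (z i : F) * (z j : F)⁻¹}) with hU
  have hUA : U ≤ A := by
    rw [hU, Subring.closure_le]
    rintro t (ht | ⟨i, _, rfl⟩)
    · exact hQA ht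
    · exact hij i
  have hQU : lo A P ≤ lo A U := fun y hy => le_lo _ _ (Subring.subset_closure (Or.inl hy))
  have hzU : ∀ i, (z i : F) * (z j : F)⁻¹ ∈ lo A U := by
    intro i
    by_cases hi : i = j
    · rw [hi, mul_inv_cancel₀ (hz0 j)]
      exact Subring.one_mem _
    · exact le_lo _ _ (Subring.subset_closure (Or.inr ⟨i, Finset.mem_erase.2 ⟨hi, Finset.mem_univ _⟩, rfl⟩))
  have hIU : ∀ b : P, b ∈ I → (b : F) / (z j : F) ∈ lo A U := by
    intro b hb
    obtain ⟨c, hc⟩ := hexp b hb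
    rw [hc, Finset.sum_div]
    refine Subring.sum_mem _ fun i _ => ?_
    rw [mul_div_assoc, div_eq_mul_inv]
    exact Subring.mul_mem _ (hQU (c i).2) (hzU i)
  have hxz : ((x : F) / (z j : F)) ≠ 0 := div_ne_zero hx0' (hz0 j)
  have heq : lo A R = lo A U := by
    apply le_antisymm
    · refine lo_le_lo hUA ?_
      rw [hR, Subring.closure_le]
      rintro t (ht | ⟨b, hb, rfl⟩)
      · exact hQU (hPQ ht)
      · have h1 : (b : F) / (x : F) = ((b : F) / (z j : F)) * ((x : F) / (z j : F))⁻¹ := by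
          have := hz0 j
          field_simp
        rw [h1]
        refine Subring.mul_mem _ (hIU b hb) (inv_mem_lo hUA (hIU x hxI) hxz ?_)
        rw [inv_div]
        exact hTA (hJT _ (hzJ' j))
    · refine lo_le_lo hRA ?_
      rw [hU, Subring.closure_le]
      rintro t (ht | ⟨i, _, rfl⟩)
      · exact hQT ht
      · have h1 : (z i : F) * (z j : F)⁻¹ = ((z i : F) / (x : F)) * ((z j : F) / (x : F))⁻¹ := by
          have := hz0 j
          field_simp
        rw [h1]
        refine Subring.mul_mem _ (hJT _ (hzJ' i)) (inv_mem_lo hRA (hJT _ (hzJ' j)) ?_ ?_)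
        · exact div_ne_zero (hz0 j) hx0'
        · rw [inv_div]
          exact hj
  have hbl : bl A P I x = lo A U := by
    unfold bl
    rw [← hR, heq]
  refine ⟨j, hj, ?_, hTA (hJT _ (hzJ' j)), ?_⟩
  · rw [hbl]
    exact hIU x hxI
  · rw [hbl]
    convert hmain using 1
    funext i
    by_cases hi : i = j
    · rw [if_pos hi, if_neg (by rw [hi]; exact Finset.notMem_erase _ _), hi]
    · rw [if_neg hi, if_pos (Finset.mem_erase.2 ⟨hi, Finset.mem_univ _⟩)]

/-- Change of the parameters by units. -/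
theorem IndN_of_units {B : Type} [CommRing B] [IsLocalRing B] {ι κ : Type} [Fintype ι] [Fintype κ]
    {z : ι → B} (hz : IndN z) (w : κ → B) (f : κ → ι) (u : κ → B)
    (hu : ∀ k, w k ∈ maximalIdeal B → IsUnit (u k) ∧ w k = u k * z (f k))
    (hf : ∀ k l, w k ∈ maximalIdeal B → w l ∈ maximalIdeal B → f k = f l → k = l) : IndN w := by
  classical
  have h1 : Ind (fun k : {k : κ // w k ∈ maximalIdeal B} => z (f k)) := by
    refine hz.ind (fun k : {k : κ // w k ∈ maximalIdeal B} => f k) ?_ ?_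
    · intro k l hkl
      exact Subtype.ext (hf k l k.2 l.2 hkl)
    · intro k
      obtain ⟨h2, h3⟩ := hu k k.2
      have h4 := k.2
      rw [h3] at h4
      exact (Ideal.unit_mul_mem_iff_mem _ h2).1 h4
  refine IndN.of_ind (Subtype.val : {k : κ // w k ∈ maximalIdeal B} → κ) Subtype.val_injective
    (fun i hi => ⟨⟨i, hi⟩, rfl⟩) ⟨fun k => k.2, fun c hc k => ?_⟩
  have h2 := h1.2 (fun k => c k * u k) (by
    convert hc using 1
    refine Finset.sum_congr rfl fun k _ => ?_
    have h3 := (hu k k.2).2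
    change c k * u k * z (f k) = c k * w k
    rw [h3, mul_assoc]) k
  exact (Ideal.mul_unit_mem_iff_mem _ (hu k k.2).1).1 h2

theorem MONX : Pool.Agent.Run7.h275.RB.S_MONX := by
  classical
  intro F _ A P hA hP s x hxP h I hRQ J hJI hJu x₀ hx₀I hx₀0 hx₀A
  unfold RQ at hRQ
  have hreg := h.reg
  have hx₀0' : (x₀ : F) ≠ 0 := fun h => hx₀0 (Subtype.ext h)
  have hne : I.map (Subring.inclusion (le_lo A P)) ≠ ⊤ := Ideal.Quotient.nontrivial_iff.1 inferInstance
  have hle : I.map (Subring.inclusion (le_lo A P)) ≤ maximalIdeal (lo A P) :=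
    IsLocalRing.le_maximalIdeal hne
  have hxJ : ∀ i ∈ J, (⟨x i, h.mem i⟩ : lo A P) ∈ I.map (Subring.inclusion (le_lo A P)) := by
    intro i hi
    obtain ⟨b, hb, hbx⟩ := hJI i hi
    have h1 : (⟨x i, h.mem i⟩ : lo A P) = Subring.inclusion (le_lo A P) b := Subtype.ext hbx.symm
    rw [h1]
    exact Ideal.mem_map_of_mem _ hb
  have hind : Ind (fun i : {i // i ∈ J} => (⟨x i, h.mem i⟩ : lo A P)) :=
    h.ind.ind (Subtype.val : {i // i ∈ J} → Fin s) Subtype.val_injective fun i => hle (hxJ i i.2)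
  obtain ⟨r, z, hz, hzJ⟩ := exists_ind' _ hind fun i => hxJ i i.2
  obtain ⟨j, hj1, hj2, hj3, hR⟩ := mon_core hA hP hreg I _ hz hzJ x₀ hx₀I hx₀0 hx₀A
  set y : {i // i ∈ J} ⊕ Fin r → lo A P :=
    Sum.elim (fun i : {i // i ∈ J} => (⟨x i, h.mem i⟩ : lo A P)) z with hy
  have hy0 : ∀ i, (y i : F) ≠ 0 := fun i h => hz.ne_zero i (Subtype.ext h)
  have hTreg := hR.reg
  set T := bl A P I x₀ with hT
  have hTA : T ≤ A := hR.PA
  have hPT : P ≤ T := fun p hp => le_lo _ _ (Subring.subset_closure (Or.inl hp))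
  have hdiv : ∀ b : P, b ∈ I → (b : F) / x₀ ∈ T := fun b hb =>
    le_lo _ _ (Subring.subset_closure (Or.inr ⟨b, hb, rfl⟩))
  -- the unit `v = x₀ / y_j`
  have hv0 : (x₀ : F) / (y j : F) ≠ 0 := div_ne_zero hx₀0' (hy0 j)
  have hvi : (y j : F) / (x₀ : F) ∈ T := by
    have h1 := hR.inv _ hj2 hv0 (by rw [inv_div]; exact hj3)
    rwa [inv_div] at h1
  have hw : ∀ k : Fin (s + 1), (Fin.snoc (α := fun _ => F) (fun i => if i ∈ J then x i / x₀ else x i) (x₀ : F)) k ∈ T ∧
      (Fin.snoc (α := fun _ => F) (fun i => if i ∈ J then x i / x₀ else x i) (x₀ : F)) k ≠ 0 := by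
    intro k
    refine Fin.lastCases ?_ (fun i => ?_) k
    · rw [Fin.snoc_last]
      exact ⟨hPT x₀.2, hx₀0'⟩
    · rw [Fin.snoc_castSucc]
      by_cases hi : i ∈ J
      · rw [if_pos hi]
        obtain ⟨b, hb, hbx⟩ := hJI i hi
        refine ⟨?_, div_ne_zero (h.ne i) hx₀0'⟩
        rw [← hbx]
        exact hdiv b hb
      · rw [if_neg hi]
        exact ⟨hPT (hxP i), h.ne i⟩
  refine ⟨hTA, fun k => (hw k).2, fun k => (hw k).1, hTreg, hR.inv, ?_⟩
  -- the index map and the units
  let f : Fin (s + 1) → {i // i ∈ J} ⊕ Fin r := fun k =>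
    Fin.lastCases (motive := fun _ => {i // i ∈ J} ⊕ Fin r) j
      (fun i => if hi : i ∈ J then Sum.inl ⟨i, hi⟩ else j) k
  let u : Fin (s + 1) → T := fun k =>
    Fin.lastCases (motive := fun _ => T) (⟨(x₀ : F) / (y j : F), hj2⟩ : T)
      (fun i => (⟨(y j : F) / (x₀ : F), hvi⟩ : T)) k
  have hux : ∀ t : T, t ∈ maximalIdeal T ↔ ¬ ((t : F) ≠ 0 ∧ (t : F)⁻¹ ∈ A) := fun t => hR.mem_max t
  have hnm : ∀ k : Fin s, (⟨_, (hw k.castSucc).1⟩ : T) ∈ maximalIdeal T →
      ∃ hk : k ∈ J, (Sum.inl ⟨k, hk⟩ : {i // i ∈ J} ⊕ Fin r) ≠ j := by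
    intro k hk
    rw [hux] at hk
    have hk' : ¬ ((Fin.snoc (α := fun _ => F) (fun i => if i ∈ J then x i / x₀ else x i) (x₀ : F)) k.castSucc ≠ 0 ∧
      ((Fin.snoc (α := fun _ => F) (fun i => if i ∈ J then x i / x₀ else x i) (x₀ : F)) k.castSucc)⁻¹ ∈ A) := hk
    rw [Fin.snoc_castSucc] at hk'
    by_cases hkJ : k ∈ J
    · refine ⟨hkJ, fun h1 => ?_⟩
      rw [if_pos hkJ] at hk'
      apply hk'
      have h2 : (y j : F) = x k := by rw [← h1]; rfl
      refine ⟨div_ne_zero (h.ne k) hx₀0', ?_⟩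
      rw [inv_div, ← h2]
      exact hj1
    · exfalso
      rw [if_neg hkJ] at hk'
      exact hk' ⟨h.ne k, hJu k hkJ⟩
  refine IndN_of_units hR.ind _ f u ?_ ?_
  · intro k
    refine Fin.lastCases ?_ (fun i => ?_) k
    · intro _
      have hu : u (Fin.last s) = ⟨(x₀ : F) / (y j : F), hj2⟩ := Fin.lastCases_last
      have hfj : f (Fin.last s) = j := Fin.lastCases_last
      rw [hu, hfj]
      refine ⟨(hR.isUnit _).2 ⟨hv0, ?_⟩, Subtype.ext ?_⟩
      · change ((x₀ : F) / (y j : F))⁻¹ ∈ A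
        rw [inv_div]
        exact hj3
      · change (Fin.snoc (α := fun _ => F) (fun i => if i ∈ J then x i / x₀ else x i) (x₀ : F)) (Fin.last s) =
          (x₀ : F) / (y j : F) * (if j = j then (y j : F) else (y j : F) * (y j : F)⁻¹)
        rw [Fin.snoc_last, if_pos rfl, div_mul_cancel₀ _ (hy0 j)]
    · intro hi
      obtain ⟨hiJ, hij⟩ := hnm i hi
      have hu : u i.castSucc = ⟨(y j : F) / (x₀ : F), hvi⟩ := Fin.lastCases_castSucc i
      have hfi : f i.castSucc = Sum.inl ⟨i, hiJ⟩ := by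
        have h1 : f i.castSucc = if hi : i ∈ J then Sum.inl ⟨i, hi⟩ else j := Fin.lastCases_castSucc i
        rw [h1, dif_pos hiJ]
      rw [hu, hfi]
      refine ⟨(hR.isUnit _).2 ⟨div_ne_zero (hy0 j) hx₀0', ?_⟩, Subtype.ext ?_⟩
      · change ((y j : F) / (x₀ : F))⁻¹ ∈ A
        rw [inv_div]
        exact hj1
      · change (Fin.snoc (α := fun _ => F) (fun i => if i ∈ J then x i / x₀ else x i) (x₀ : F)) i.castSucc =
          (y j : F) / (x₀ : F) * (if (Sum.inl ⟨i, hiJ⟩ : {i // i ∈ J} ⊕ Fin r) = j then (y j : F) else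
            (y (Sum.inl ⟨i, hiJ⟩) : F) * (y j : F)⁻¹)
        rw [Fin.snoc_castSucc, if_pos hiJ, if_neg hij]
        have h1 : (y (Sum.inl ⟨i, hiJ⟩) : F) = x i := rfl
        rw [h1]
        have := hy0 j
        field_simp
  · intro k l
    refine Fin.lastCases ?_ (fun i => ?_) k
    · refine Fin.lastCases ?_ (fun i' => ?_) l
      · intro _ _ _
        rfl
      · intro _ hi' hff
        exfalso
        obtain ⟨hiJ, hij⟩ := hnm i' hi'
        have h1 : f i'.castSucc = if hi : i' ∈ J then Sum.inl ⟨i', hi⟩ else j := Fin.lastCases_castSucc i'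
        have h2 : f (Fin.last s) = j := Fin.lastCases_last
        rw [h1, h2, dif_pos hiJ] at hff
        exact hij hff.symm
    · refine Fin.lastCases ?_ (fun i' => ?_) l
      · intro hi _ hff
        exfalso
        obtain ⟨hiJ, hij⟩ := hnm i hi
        have h1 : f i.castSucc = if hi : i ∈ J then Sum.inl ⟨i, hi⟩ else j := Fin.lastCases_castSucc i
        have h2 : f (Fin.last s) = j := Fin.lastCases_last
        rw [h1, h2, dif_pos hiJ] at hff
        exact hij hff
      · intro hi hi' hff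
        obtain ⟨hiJ, hij⟩ := hnm i hi
        obtain ⟨hiJ', hij'⟩ := hnm i' hi'
        have h1 : f i.castSucc = if hi : i ∈ J then Sum.inl ⟨i, hi⟩ else j := Fin.lastCases_castSucc i
        have h2 : f i'.castSucc = if hi : i' ∈ J then Sum.inl ⟨i', hi⟩ else j := Fin.lastCases_castSucc i'
        rw [h1, h2, dif_pos hiJ, dif_pos hiJ'] at hff
        have h3 := Sum.inl_injective hff
        have h4 : i = i' := congrArg Subtype.val h3
        rw [h4]

end Pool.Agent.Run7.h637.RB
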