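import Pool.Agent.Run7.h275.RB6

/-!
# Piece NCF: at level zero there are normal crossings
-/

set_option autoImplicit false

namespace Pool.Agent.Run7.h637.RB

open IsLocalRing Pool.Agent.W418.LU2 Pool.Agent.H918R2.Quad Pool.Agent.Run7.h275.RL Pool.Agent.Run7.h275.RB

section ncr

variable {O F : Type} [CommRing O] [Field F] [Algebra O F]

theorem ncr_of {M₀ N : Submodule O F} {c : ℕ} {A P : Subring F} {ι : Type} [Fintype ι] {x : ι → F}
    (h : RegP A P x) {g : F} {δ : ι → ℕ} (hgδ : g = ∏ i, x i ^ δ i) {w : F} (hw : w ∈ M₀) (hw0 : w ≠ 0)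
    (hwP : ∀ m ∈ M₀, m / w ∈ P) (hN : ∀ n ∈ N, n / w ^ c * g⁻¹ ∈ P) {n₁ : F} (hn₁ : n₁ ∈ N)
    (hn₁0 : n₁ ≠ 0) (hu : (n₁ / w ^ c * g⁻¹)⁻¹ ∈ A) : NCr M₀ N c P := by
  classical
  have hreg := h.reg
  let J := {i : ι // (⟨x i, h.mem i⟩ : P) ∈ maximalIdeal P}
  have h0 : Ind (fun i : J => (⟨x i, h.mem i⟩ : P)) :=
    h.ind.ind (Subtype.val : J → ι) Subtype.val_injective fun i => i.2
  obtain ⟨m, w', hspan, hd⟩ := h0.extend
  let e := Fintype.equivFin (J ⊕ Fin m)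
  let X : J ⊕ Fin m → P := Sum.elim (fun i : J => (⟨x i, h.mem i⟩ : P)) w'
  let η : J ⊕ Fin m → ℕ := Sum.elim (fun i => δ i) fun _ => 0
  have hxu : ∀ i, ¬ ((⟨x i, h.mem i⟩ : P) ∈ maximalIdeal P) → (x i)⁻¹ ∈ P := by
    intro i hi
    rw [h.mem_max, not_not] at hi
    exact h.inv _ (h.mem i) (h.ne i) hi.2
  have hw0c : w ^ c ≠ 0 := pow_ne_zero _ hw0
  have hx0 : ∀ i, x i ≠ 0 := h.ne
  have hg0 : g ≠ 0 := by
    rw [hgδ]
    exact Finset.prod_ne_zero_iff.2 fun i _ => pow_ne_zero _ (hx0 i)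
  have hprod : ∏ i, x i ^ δ i = (∏ i ∈ Finset.univ.filter
      (fun i => ¬ (⟨x i, h.mem i⟩ : P) ∈ maximalIdeal P), x i ^ δ i) * ∏ i : J, x i ^ δ i := by
    rw [mul_comm, ← Finset.prod_filter_mul_prod_filter_not Finset.univ
      (fun i => (⟨x i, h.mem i⟩ : P) ∈ maximalIdeal P)]
    congr 1
    exact (Finset.prod_subtype _ (fun i => by simp) (fun i => x i ^ δ i))
  set v : F := ∏ i ∈ Finset.univ.filter
      (fun i => ¬ (⟨x i, h.mem i⟩ : P) ∈ maximalIdeal P), x i ^ δ i with hv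
  have hvP : v ∈ P := P.prod_mem fun i _ => P.pow_mem (h.mem i) _
  have hviP : v⁻¹ ∈ P := by
    rw [hv, ← Finset.prod_inv_distrib]
    refine P.prod_mem fun i hi => ?_
    rw [← inv_pow]
    exact P.pow_mem (hxu i (Finset.mem_filter.1 hi).2) _
  have hv0 : v ≠ 0 := Finset.prod_ne_zero_iff.2 fun i _ => pow_ne_zero _ (hx0 i)
  have hgv : g = v * ∏ i : J, x i ^ δ i := by rw [hgδ, hprod]
  have hpr : ((∏ i, X (e.symm i) ^ η (e.symm i) : P) : F) = ∏ i : J, x i ^ δ i := by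
    rw [e.symm.prod_comp (fun i => X i ^ η i), Fintype.prod_sum_type]
    have h1 : ∏ i : Fin m, X (Sum.inr i) ^ η (Sum.inr i) = 1 :=
      Finset.prod_eq_one fun i _ => pow_zero _
    rw [h1, mul_one, SubmonoidClass.coe_finsetProd]
    rfl
  have hgm : v⁻¹ * g = ((∏ i, X (e.symm i) ^ η (e.symm i) : P) : F) := by
    rw [hpr, hgv, inv_mul_cancel_left₀ hv0]
  refine ⟨hreg, Fintype.card (J ⊕ Fin m), fun i => X (e.symm i), fun i => η (e.symm i), ?_, ?_, ?_⟩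
  · refine Eq.trans ?_ hspan
    congr 1
    ext z
    constructor
    · rintro ⟨i, rfl⟩
      exact ⟨_, rfl⟩
    · rintro ⟨i, rfl⟩
      exact ⟨e i, by simp [X]⟩
  · rw [hd, Fintype.card_sum, Fintype.card_fin]
  · apply le_antisymm
    · refine Ideal.span_le.2 ?_
      rintro b ⟨w₁, hw₁, hw₁0, hw₁P, n, hn, hb⟩
      rw [SetLike.mem_coe, Ideal.mem_span_singleton']
      have h2 : n / w ^ c * g⁻¹ * v * (w / w₁) ^ c ∈ P :=
        P.mul_mem (P.mul_mem (hN n hn) hvP) (P.pow_mem (hw₁P w hw) _)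
      refine ⟨⟨_, h2⟩, Subtype.ext ?_⟩
      change n / w ^ c * g⁻¹ * v * (w / w₁) ^ c * ((∏ i, X (e.symm i) ^ η (e.symm i) : P) : F) = b
      rw [← hgm, hb, div_pow]
      have := pow_ne_zero c hw₁0
      field_simp
    · rw [Ideal.span_singleton_le_iff_mem]
      have h3 : (n₁ / w ^ c * g⁻¹)⁻¹ ∈ P := h.inv _ (hN n₁ hn₁)
        (mul_ne_zero (div_ne_zero hn₁0 hw0c) (inv_ne_zero hg0)) hu
      have hn₁P : n₁ / w ^ c ∈ P := by
        have h4 : n₁ / w ^ c = n₁ / w ^ c * g⁻¹ * g := by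
          rw [mul_assoc, inv_mul_cancel₀ hg0, mul_one]
        rw [h4]
        refine P.mul_mem (hN n₁ hn₁) ?_
        rw [hgv]
        exact P.mul_mem hvP (P.prod_mem fun i _ => P.pow_mem (h.mem i) _)
      have h4 : (∏ i, X (e.symm i) ^ η (e.symm i) : P) =
          ⟨v⁻¹ * (n₁ / w ^ c * g⁻¹)⁻¹, P.mul_mem hviP h3⟩ * ⟨n₁ / w ^ c, hn₁P⟩ := by
        apply Subtype.ext
        rw [← hgm]
        change v⁻¹ * g = v⁻¹ * (n₁ / w ^ c * g⁻¹)⁻¹ * (n₁ / w ^ c)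
        field_simp
      rw [h4]
      exact Ideal.mul_mem_left _ _ (Ideal.subset_span ⟨w, hw, hw0, hwP, n₁, hn₁, rfl⟩)

end ncr

theorem NCF : Pool.Agent.Run7.h275.RB.S_NCF := by
  intro O F _ _ _ M₀ N₀ c p hp V hV hL
  obtain ⟨n, hn, ho⟩ := hL
  obtain ⟨α, hα⟩ := hp.mon
  have hle := le_lo V.toSubring p.B
  have h1 : ∀ n ∈ N₀, n / p.w ^ c * p.m⁻¹ ∈ lo V.toSubring p.B := by
    intro n hn
    have h2 := hle (hp.res n hn)
    rwa [← div_eq_mul_inv, div_div]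
  have h2 : ¬ V.valuation (n / (p.w ^ c * p.m)) < 1 := by
    intro h3
    have h4 := ho (fun _ => n / (p.w ^ c * p.m)) fun _ _ => h3
    rw [zero_add, Finset.prod_range_one] at h4
    exact lt_irrefl _ h4
  have h0 : n / (p.w ^ c * p.m) ≠ 0 := by
    intro h0
    rw [h0, map_zero] at h2
    exact h2 zero_lt_one
  have hn0 : n ≠ 0 := by
    rintro rfl
    exact h0 (zero_div _)
  refine ncr_of hV.reg hα hp.wM hp.w0 (fun m hm => hle (hp.wB m hm)) h1 hn hn0 ?_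
  change (n / p.w ^ c * p.m⁻¹)⁻¹ ∈ V
  rw [← div_eq_mul_inv, div_div, ← V.valuation_le_one_iff, map_inv₀]
  exact inv_le_one_of_one_le₀ (not_lt.1 h2)

end Pool.Agent.Run7.h637.RB
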