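import Pool.Agent.Run7.h275.RB5
import Pool.Agent.Run7.h275.RLJ

/-!
# Piece NZZ: nonzero minors for flat models in characteristic zero
-/

set_option autoImplicit false
set_option linter.unusedVariables false

namespace Pool.Agent.Run7.h637.RB

open IsLocalRing Pool.Agent.W418.LU2 Pool.Agent.H918R2.Quad Pool.Agent.Run7.h275.RL Pool.Agent.Run7.h275.RB

/-- Formal smoothness of a field of characteristic zero over a domain. -/
theorem fs_dom (O K : Type) [CommRing O] [IsDomain O] [CharZero O] [Field K] [Algebra O K]
    (hi : Function.Injective (algebraMap O K)) (h : Algebra.EssFiniteType O K) :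
    Algebra.FormallySmooth O K := by
  have : FaithfulSMul O K := (faithfulSMul_iff_algebraMap_injective O K).2 hi
  let _ : Algebra (FractionRing O) K := FractionRing.liftAlgebra O K
  have : IsScalarTower O (FractionRing O) K := FractionRing.isScalarTower_liftAlgebra O K
  have : CharZero (FractionRing O) :=
    charZero_of_injective_algebraMap (IsFractionRing.injective O (FractionRing O))
  have : Algebra.EssFiniteType (FractionRing O) K := Algebra.EssFiniteType.of_comp O (FractionRing O) K
  have : Algebra.FormallySmooth (FractionRing O) K := inferInstance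
  have : Algebra.FormallySmooth O (FractionRing O) :=
    Algebra.FormallySmooth.of_isLocalization (nonZeroDivisors O)
  exact Algebra.FormallySmooth.comp O (FractionRing O) K

/-- The general statement. -/
theorem nz_gen (O F : Type) [CommRing O] [IsRegularRing O] [Field F] [Algebra O F] (n : ℕ) (y : Fin n → F)
    (i : Fin n)
    (hK : Subsingleton (Algebra.H1Cotangent O (FractionRing
      (MvPolynomial.aeval (fun j => y j / y i) : MvPolynomial (Fin n) O →ₐ[O] F).range))) :
    ∃ δ, δ ≠ 0 ∧ Mn O y i δ := by
  classical
  let g : MvPolynomial (Fin n) O →ₐ[O] F := MvPolynomial.aeval (fun j => y j / y i)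
  let B := g.range
  let g' : MvPolynomial (Fin n) O →ₐ[O] B := g.rangeRestrict
  have hg' : Function.Surjective g' := g.rangeRestrict_surjective
  let K := FractionRing B
  let _ : Algebra (MvPolynomial (Fin n) O) K := ((algebraMap B K).comp g'.toRingHom).toAlgebra
  have : @IsScalarTower O (MvPolynomial (Fin n) O) K Algebra.toSMul Algebra.toSMul Algebra.toSMul :=
    IsScalarTower.of_algebraMap_eq (R := O) (S := MvPolynomial (Fin n) O) (A := K) fun x => by
      change algebraMap O K x = algebraMap B K (g' (algebraMap O (MvPolynomial (Fin n) O) x))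
      rw [g'.commutes]
      exact IsScalarTower.algebraMap_apply O B K x
  have hSK : ∀ s : MvPolynomial (Fin n) O, algebraMap (MvPolynomial (Fin n) O) K s = algebraMap B K (g' s) :=
    fun s => rfl
  have hBK : Function.Injective (algebraMap B K) := IsFractionRing.injective B K
  have h0 : ∀ s : MvPolynomial (Fin n) O, algebraMap (MvPolynomial (Fin n) O) K s = 0 ↔ g s = 0 := by
    intro s
    rw [hSK, map_eq_zero_iff _ hBK]
    constructor
    · intro h
      exact congrArg Subtype.val h
    · intro h
      exact Subtype.ext h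
  have hfr : ∀ z : K, ∃ a b : MvPolynomial (Fin n) O, algebraMap (MvPolynomial (Fin n) O) K b ≠ 0 ∧
      z * algebraMap (MvPolynomial (Fin n) O) K b = algebraMap (MvPolynomial (Fin n) O) K a := by
    intro z
    obtain ⟨a, b, hb, rfl⟩ := IsFractionRing.div_surjective (A := B) z
    obtain ⟨a', rfl⟩ := hg' a
    obtain ⟨b', rfl⟩ := hg' b
    have hb' : algebraMap B K (g' b') ≠ 0 := fun h => nonZeroDivisors.ne_zero hb (hBK (by rw [h, map_zero]))
    exact ⟨a', b', hb', by rw [hSK, hSK, div_mul_cancel₀ _ hb']⟩
  obtain ⟨r, f, D, hf, hgen, hdet⟩ := exists_jac (k₀ := O) (S := MvPolynomial (Fin n) O) (K := K) hK hfr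
  refine ⟨(Matrix.of fun k l => g (D l (f k))).det, ?_, r, f, fun l => (D l).restrictScalars ℤ, ?_, ?_, rfl⟩
  · intro h
    apply hdet
    have h1 : (Matrix.of fun k l => g (D l (f k))).det = g (Matrix.of fun k l => D l (f k)).det := by
      rw [AlgHom.map_det]
      rfl
    have h2 : (Matrix.of fun i j => algebraMap (MvPolynomial (Fin n) O) K (D j (f i))).det =
        algebraMap (MvPolynomial (Fin n) O) K (Matrix.of fun k l => D l (f k)).det := by
      rw [RingHom.map_det]
      rfl
    rw [h2, h0, ← h1, h]
  · intro k
    exact (h0 _).1 (hf k)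
  · intro s hs
    obtain ⟨t, ht, hts⟩ := hgen s ((h0 s).2 hs)
    exact ⟨t, fun h => ht ((h0 t).2 h), hts⟩

theorem NZZ : Pool.Agent.Run7.h275.RB.S_NZZ := by
  intro O F _ _ _ _ _ _ hi n y i
  apply nz_gen
  have hinj : Function.Injective (algebraMap O (FractionRing
      (MvPolynomial.aeval (fun j => y j / y i) : MvPolynomial (Fin n) O →ₐ[O] F).range)) := by
    rw [IsScalarTower.algebraMap_eq O
      (MvPolynomial.aeval (fun j => y j / y i) : MvPolynomial (Fin n) O →ₐ[O] F).range, RingHom.coe_comp]
    refine (IsFractionRing.injective _ _).comp ?_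
    intro a b hab
    exact hi (congrArg Subtype.val hab)
  have : Algebra.FiniteType O (MvPolynomial.aeval (fun j => y j / y i) : MvPolynomial (Fin n) O →ₐ[O] F).range :=
    Algebra.FiniteType.of_surjective
      (MvPolynomial.aeval (fun j => y j / y i) : MvPolynomial (Fin n) O →ₐ[O] F).rangeRestrict
      (AlgHom.rangeRestrict_surjective _)
  have hE : Algebra.EssFiniteType O (FractionRing
      (MvPolynomial.aeval (fun j => y j / y i) : MvPolynomial (Fin n) O →ₐ[O] F).range) := inferInstance
  have : Algebra.FormallySmooth O (FractionRing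
      (MvPolynomial.aeval (fun j => y j / y i) : MvPolynomial (Fin n) O →ₐ[O] F).range) :=
    fs_dom _ _ hinj hE
  infer_instance

end Pool.Agent.Run7.h637.RB
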