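import Pool.Agent.Run7.h637.RB.Loc

/-!
# Piece LQ: the closure of the centres is regular on an open set
-/

set_option autoImplicit false

namespace Pool.Agent.Run7.h637.RB

open IsLocalRing Pool.Agent.W418.LU2 Pool.Agent.Run7.h275.RL Pool.Agent.Run7.h275.RB

theorem LQ : Pool.Agent.Run7.h275.RB.S_LQ := by
  intro O F _ _ _ _ hJ B hB 𝔭 h𝔭
  obtain ⟨s, hs⟩ := hB
  have hO : ∀ o : O, algebraMap O F o ∈ B := fun o => by
    rw [← hs]
    exact (Algebra.adjoin O (s : Set F)).algebraMap_mem o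
  let _ : Algebra O B := ((algebraMap O F).codRestrict B hO).toAlgebra
  -- finite type
  let e : Algebra.adjoin O (s : Set F) →ₐ[O] B :=
    { toFun := fun x => ⟨x, by rw [← hs]; exact x.2⟩
      map_one' := rfl
      map_mul' := fun _ _ => rfl
      map_zero' := rfl
      map_add' := fun _ _ => rfl
      commutes' := fun _ => rfl }
  have he : Function.Surjective e := by
    rintro ⟨x, hx⟩
    have hx' : x ∈ (Algebra.adjoin O (s : Set F)).toSubring := by rw [hs]; exact hx
    exact ⟨⟨x, hx'⟩, rfl⟩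
  have hft0 : Algebra.FiniteType O (Algebra.adjoin O (s : Set F)) :=
    (Algebra.adjoin O (s : Set F)).fg_iff_finiteType.1 (Subalgebra.fg_adjoin_finset s)
  have hft1 : Algebra.FiniteType O B := hft0.of_surjective e he
  have hft : Algebra.FiniteType O (B ⧸ 𝔭) :=
    hft1.of_surjective (Ideal.Quotient.mkₐ O 𝔭) (Ideal.Quotient.mkₐ_surjective O 𝔭)
  obtain ⟨t', ht', hreg⟩ := hJ (B ⧸ 𝔭) hft
  obtain ⟨t, rfl⟩ := Ideal.Quotient.mk_surjective t'
  refine ⟨t, fun h => ht' (Ideal.Quotient.eq_zero_iff_mem.2 h), ?_⟩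
  intro V hBV hV ht
  have hcp := isPrime_cen hBV
  have hle : 𝔭 ≤ cen hBV := fun b hb => hV b hb
  have hker : RingHom.ker (Ideal.Quotient.mk 𝔭) ≤ cen hBV := by
    rw [Ideal.mk_ker]
    exact hle
  have hq' : ((cen hBV).map (Ideal.Quotient.mk 𝔭)).IsPrime :=
    Ideal.map_isPrime_of_surjective Ideal.Quotient.mk_surjective hker
  have htq : Ideal.Quotient.mk 𝔭 t ∉ (cen hBV).map (Ideal.Quotient.mk 𝔭) := by
    intro h
    rw [← Ideal.mem_comap, Ideal.comap_map_of_surjective _ Ideal.Quotient.mk_surjective,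
      ← RingHom.ker_eq_comap_bot, sup_eq_left.2 hker] at h
    exact ht h
  have h1 := hreg _ htq
  let _ := algLo V.toSubring B
  have hloc := loc_lo hBV
  have h2 := quot_loc (Q := lo V.toSubring B) (cen hBV) 𝔭 hle
  have h3 : IsRegularLocalRing (lo V.toSubring B ⧸ 𝔭.map (algebraMap B (lo V.toSubring B))) :=
    reg_of_loc _ h1
  exact h3

end Pool.Agent.Run7.h637.RB
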