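import Pool.Agent.Run7.h275.RB0
import Pool.Agent.Run7.h637.RB.REG0

/-!
# Localisations at the centre of a valuation ring
-/

set_option autoImplicit false

namespace Pool.Agent.Run7.h637.RB

open IsLocalRing Pool.Agent.W418.LU2 Pool.Agent.Run7.h275.RL Pool.Agent.Run7.h275.RB

section general

/-- Localisation and quotients. -/
theorem quot_loc {B Q : Type} [CommRing B] [CommRing Q] [Algebra B Q] (q : Ideal B) [q.IsPrime]
    [IsLocalization.AtPrime Q q] (p : Ideal B) (hp : p ≤ q)
    [hq' : (q.map (Ideal.Quotient.mk p)).IsPrime] :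
    IsLocalization.AtPrime (Q ⧸ p.map (algebraMap B Q)) (q.map (Ideal.Quotient.mk p)) := by
  have hmem : ∀ a : B, Ideal.Quotient.mk p a ∈ q.map (Ideal.Quotient.mk p) ↔ a ∈ q := by
    intro a
    rw [← Ideal.mem_comap, Ideal.comap_map_of_surjective _ Ideal.Quotient.mk_surjective,
      ← RingHom.ker_eq_comap_bot, Ideal.mk_ker, sup_eq_left.2 hp]
  have halg : ∀ a : B, algebraMap (B ⧸ p) (Q ⧸ p.map (algebraMap B Q)) (Ideal.Quotient.mk p a) =
      Ideal.Quotient.mk _ (algebraMap B Q a) := fun a => rfl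
  change IsLocalization _ _
  rw [isLocalization_iff]
  refine ⟨?_, ?_, ?_⟩
  · rintro ⟨y, hy⟩
    obtain ⟨a, rfl⟩ := Ideal.Quotient.mk_surjective y
    have ha : a ∉ q := fun h => hy ((hmem a).2 h)
    rw [halg]
    exact (IsLocalization.map_units Q (⟨a, ha⟩ : q.primeCompl)).map _
  · intro z
    obtain ⟨z, rfl⟩ := Ideal.Quotient.mk_surjective z
    obtain ⟨⟨a, b⟩, hab⟩ := IsLocalization.surj q.primeCompl z
    refine ⟨⟨Ideal.Quotient.mk p a, ⟨Ideal.Quotient.mk p b, fun h => b.2 ((hmem _).1 h)⟩⟩, ?_⟩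
    rw [halg, halg, ← hab, map_mul]
  · intro x y hxy
    obtain ⟨x, rfl⟩ := Ideal.Quotient.mk_surjective x
    obtain ⟨y, rfl⟩ := Ideal.Quotient.mk_surjective y
    rw [halg, halg, Ideal.Quotient.eq, ← map_sub,
      IsLocalization.algebraMap_mem_map_algebraMap_iff q.primeCompl] at hxy
    obtain ⟨m, hm, hm'⟩ := hxy
    refine ⟨⟨Ideal.Quotient.mk p m, fun h => hm ((hmem _).1 h)⟩, ?_⟩
    rw [← map_mul, ← map_mul, Ideal.Quotient.eq, ← mul_sub]
    exact hm'

theorem reg_of_loc {B Q : Type} [CommRing B] [CommRing Q] [Algebra B Q] (q : Ideal B) [q.IsPrime]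
    [IsLocalization.AtPrime Q q] (h : IsRegularLocalRing (Localization.AtPrime q)) :
    IsRegularLocalRing Q :=
  IsRegularLocalRing.of_ringEquiv (R := Localization.AtPrime q)
    (IsLocalization.algEquiv q.primeCompl (Localization.AtPrime q) Q).toRingEquiv

/-- The dimension inequality. -/
theorem height_add_le {Q : Type} [CommRing Q] (P : Ideal Q) [hP : P.IsPrime] :
    ((P.height : ℕ∞) : WithBot ℕ∞) + ringKrullDim (Q ⧸ P) ≤ ringKrullDim Q := by
  let x : PrimeSpectrum Q := ⟨P, hP⟩
  have h1 : ringKrullDim (Q ⧸ P) = ((Order.coheight x : ℕ∞) : WithBot ℕ∞) := by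
    rw [ringKrullDim_quotient, Order.coheight_eq_krullDim_Ici]
    congr 1
  have h2 : P.height = Order.height x := PrimeSpectrum.height_eq_orderHeight x
  have hne : Nonempty (PrimeSpectrum Q) := ⟨x⟩
  rw [h1, h2, ringKrullDim, Order.krullDim_eq_iSup_height_add_coheight_of_nonempty]
  rw [← WithBot.coe_add, WithBot.coe_le_coe]
  exact le_iSup (fun a : PrimeSpectrum Q => Order.height a + Order.coheight a) x

end general

section cen

variable {F : Type} [Field F] {V : ValuationSubring F} {B : Subring F}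

/-- The centre. -/
def cen (hB : B ≤ V.toSubring) : Ideal B where
  carrier := {b | V.valuation (b : F) < 1}
  zero_mem' := by
    change V.valuation (0 : F) < 1
    rw [map_zero]
    exact zero_lt_one
  add_mem' := fun {a b} ha hb => by
    change V.valuation ((a : F) + (b : F)) < 1
    exact Valuation.map_add_lt _ ha hb
  smul_mem' := fun c x hx => by
    change V.valuation ((c : F) * (x : F)) < 1
    rw [map_mul]
    exact mul_lt_one_aux ((V.valuation_le_one_iff _).2 (hB c.2)) hx

lemma mem_cen (hB : B ≤ V.toSubring) {b : B} : b ∈ cen hB ↔ V.valuation (b : F) < 1 := Iff.rfl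

lemma isPrime_cen (hB : B ≤ V.toSubring) : (cen hB).IsPrime where
  ne_top' := by
    rw [Ideal.ne_top_iff_one]
    intro h
    have h1 : V.valuation (1 : F) < 1 := h
    rw [map_one] at h1
    exact lt_irrefl _ h1
  mem_or_mem' := by
    intro a b h
    by_contra hn
    push Not at hn
    have h1 : V.valuation (a : F) = 1 := le_antisymm ((V.valuation_le_one_iff _).2 (hB a.2))
      (not_lt.1 hn.1)
    have h2 : V.valuation (b : F) = 1 := le_antisymm ((V.valuation_le_one_iff _).2 (hB b.2))
      (not_lt.1 hn.2)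
    have h3 : V.valuation ((a : F) * (b : F)) < 1 := h
    rw [map_mul, h1, h2, one_mul] at h3
    exact lt_irrefl _ h3

/-- The algebra structure. -/
@[instance_reducible]
noncomputable def algLo (A B : Subring F) : Algebra B (lo A B) :=
  (Subring.inclusion (le_lo A B)).toAlgebra

lemma loc_lo (hB : B ≤ V.toSubring) [(cen hB).IsPrime] :
    let _ := algLo V.toSubring B
    IsLocalization.AtPrime (lo V.toSubring B) (cen hB) := by
  let _ := algLo V.toSubring B
  have halg : ∀ b : B, ((algebraMap B (lo V.toSubring B) b : lo V.toSubring B) : F) = b :=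
    fun b => rfl
  change IsLocalization _ _
  rw [isLocalization_iff]
  refine ⟨?_, ?_, ?_⟩
  · rintro ⟨y, hy⟩
    rw [isUnit_lo_iff hB]
    have h1 : ¬ V.valuation (y : F) < 1 := hy
    rw [lt_one_iff_NU (hB y.2)] at h1
    exact not_not.1 h1
  · rintro ⟨z, a, ha, b, hb, hb0, hbV, rfl⟩
    refine ⟨⟨⟨a, ha⟩, ⟨⟨b, hb⟩, ?_⟩⟩, ?_⟩
    · intro h
      have h1 : V.valuation (b : F) < 1 := h
      rw [lt_one_iff_NU (hB hb)] at h1
      exact h1 ⟨hb0, hbV⟩
    · apply Subtype.ext
      change a * b⁻¹ * b = a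
      rw [mul_assoc, inv_mul_cancel₀ hb0, mul_one]
  · intro x y hxy
    refine ⟨1, ?_⟩
    have h1 : (x : F) = y := congrArg (Subtype.val : lo V.toSubring B → F) hxy
    rw [Subtype.ext h1]

end cen

end Pool.Agent.Run7.h637.RB
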